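import Mathlib

set_option autoImplicit false

namespace Q116.GP

open Finset

/-- The generalized Petersen graph `P(n, k)`: `inl i` is `u_i`, `inr i` is `v_i`. -/
def GP (n k : ℕ) : SimpleGraph (ZMod n ⊕ ZMod n) :=
  SimpleGraph.fromRel fun a b =>
    match a, b with
    | Sum.inl i, Sum.inl j => j = i + 1
    | Sum.inl i, Sum.inr j => i = j
    | Sum.inr _, Sum.inl _ => False
    | Sum.inr i, Sum.inr j => j = i + (k : ZMod n)

/-- Independent sets of `P(n,k)` from pairs of sets of indices. -/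
theorem indep_of (n k : ℕ) (U V : Finset (ZMod n)) (hU : ∀ i ∈ U, i + 1 ∉ U)
    (hV : ∀ i ∈ V, i + (k : ZMod n) ∉ V) (hUV : ∀ i ∈ U, i ∉ V) :
    (GP n k).IsIndepSet ((U.disjSum V : Finset (ZMod n ⊕ ZMod n)) : Set (ZMod n ⊕ ZMod n)) := by
  rintro (i | i) hi (j | j) hj hne hadj
  all_goals
    rw [Finset.mem_coe] at hi hj
    simp only [Finset.inl_mem_disjSum, Finset.inr_mem_disjSum] at hi hj
    unfold GP at hadj
    rw [SimpleGraph.fromRel_adj] at hadj
    obtain ⟨_, h | h⟩ := hadj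
  · simp only at h; rw [h] at hj; exact hU i hi hj
  · simp only at h; rw [h] at hi; exact hU j hj hi
  · simp only at h; rw [← h] at hj; exact hUV i hi hj
  · exact h
  · exact h
  · simp only at h; rw [← h] at hi; exact hUV j hj hi
  · simp only at h; rw [h] at hj; exact hV i hi hj
  · simp only at h; rw [h] at hi; exact hV j hj hi

/-- `HasIndep n k s`: `P(n,k)` has an independent set of size at least `s`, in index form. -/
def HasIndep (n k s : ℕ) : Prop :=
  ∃ U V : Finset (ZMod n), (∀ i ∈ U, i + 1 ∉ U) ∧ (∀ i ∈ V, i + (k : ZMod n) ∉ V) ∧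
    (∀ i ∈ U, i ∉ V) ∧ s ≤ U.card + V.card

theorem card_val_lt (n T : ℕ) [NeZero n] (hT : T ≤ n) :
    ((univ : Finset (ZMod n)).filter (fun x => x.val < T)).card = T := by
  have : (univ : Finset (ZMod n)).filter (fun x => x.val < T) =
      (Finset.range T).image (fun i : ℕ => (i : ZMod n)) := by
    ext x
    rw [Finset.mem_filter, Finset.mem_image]
    constructor
    · rintro ⟨_, h⟩
      exact ⟨x.val, Finset.mem_range.2 h, ZMod.natCast_zmod_val x⟩
    · rintro ⟨i, hi, rfl⟩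
      rw [Finset.mem_range] at hi
      exact ⟨Finset.mem_univ _, by rw [ZMod.val_natCast_of_lt (by omega)]; exact hi⟩
  rw [this, Finset.card_image_of_injOn, Finset.card_range]
  intro i hi j hj hij
  rw [Finset.mem_coe, Finset.mem_range] at hi hj
  have := congrArg ZMod.val hij
  simp only at this
  rwa [ZMod.val_natCast_of_lt (by omega), ZMod.val_natCast_of_lt (by omega)] at this

/-- Two residues whose difference is `s` are not both in a short arc. -/
theorem arc_disjoint (n : ℕ) [NeZero n] (s : ℤ) (lo A : ℕ)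
    (hA : ∀ δ : ℤ, |δ| < A → ¬ (n : ℤ) ∣ δ - s) (x : ZMod n)
    (h1 : lo ≤ x.val ∧ x.val < lo + A) :
    ¬ (lo ≤ (x + (s : ZMod n)).val ∧ (x + (s : ZMod n)).val < lo + A) := by
  intro h2
  apply hA (((x + (s : ZMod n)).val : ℤ) - x.val)
  · rw [abs_lt]; omega
  · rw [← ZMod.intCast_zmod_eq_zero_iff_dvd]
    push_cast
    rw [ZMod.natCast_zmod_val, ZMod.natCast_zmod_val]
    ring

/-- The arc construction. -/
theorem arc (n k : ℕ) [NeZero n] (m : ℤ) (A B : ℕ) (hAB : A + B ≤ n)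
    (hA : ∀ δ : ℤ, |δ| < A → ¬ (n : ℤ) ∣ δ - m)
    (hB : ∀ δ : ℤ, |δ| < B → ¬ (n : ℤ) ∣ δ - k * m) : HasIndep n k (A + B) := by
  classical
  set U : ZMod n → Finset (ZMod n) := fun c => univ.filter (fun i => ((m : ZMod n) * i - c).val < A)
    with hU
  set V : ZMod n → Finset (ZMod n) := fun c => univ.filter
    (fun i => A ≤ ((m : ZMod n) * i - c).val ∧ ((m : ZMod n) * i - c).val < A + B) with hV
  have hsum : ∑ c : ZMod n, ((U c).card + (V c).card) = ∑ _c : ZMod n, (A + B) := by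
    have h1 : ∀ c, (U c).card + (V c).card =
        (univ.filter (fun i : ZMod n => ((m : ZMod n) * i - c).val < A + B)).card := by
      intro c
      rw [← Finset.card_union_of_disjoint]
      · congr 1
        ext i
        simp only [hU, hV, Finset.mem_union, Finset.mem_filter, Finset.mem_univ, true_and]
        omega
      · rw [Finset.disjoint_left]
        intro i hi hi2
        simp only [hU, hV, Finset.mem_filter, Finset.mem_univ, true_and] at hi hi2
        omega
    simp_rw [h1, Finset.card_filter]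
    rw [Finset.sum_comm]
    apply Finset.sum_congr rfl
    intro i _
    have h2 : ∑ c : ZMod n, (if ((m : ZMod n) * i - c).val < A + B then 1 else 0) =
        ∑ c : ZMod n, (if c.val < A + B then 1 else 0) :=
      Equiv.sum_comp (Equiv.subLeft ((m : ZMod n) * i))
        (fun c : ZMod n => if c.val < A + B then 1 else 0)
    rw [h2, ← Finset.card_filter]
    exact card_val_lt n (A + B) hAB
  obtain ⟨c, _, hc⟩ := Finset.exists_le_of_sum_le (s := (univ : Finset (ZMod n)))
    (Finset.univ_nonempty) hsum.ge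
  refine ⟨U c, V c, ?_, ?_, ?_, hc⟩
  · intro i hi hi2
    simp only [hU, Finset.mem_filter, Finset.mem_univ, true_and] at hi hi2
    have := arc_disjoint n m 0 A hA ((m : ZMod n) * i - c) ⟨Nat.zero_le _, by omega⟩
    apply this
    rw [show (m : ZMod n) * i - c + (m : ZMod n) = (m : ZMod n) * (i + 1) - c by ring]
    exact ⟨Nat.zero_le _, by omega⟩
  · intro i hi hi2
    simp only [hV, Finset.mem_filter, Finset.mem_univ, true_and] at hi hi2
    have := arc_disjoint n (k * m) A B hB ((m : ZMod n) * i - c) hi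
    apply this
    rw [show (m : ZMod n) * i - c + ((k * m : ℤ) : ZMod n) =
      (m : ZMod n) * (i + (k : ZMod n)) - c by push_cast; ring]
    exact hi2
  · intro i hi hi2
    simp only [hU, hV, Finset.mem_filter, Finset.mem_univ, true_and] at hi hi2
    omega

/-- Odd `n`: a short odd-odd vector of the lattice suffices. -/
theorem of_odd_vec (n k : ℕ) (hn : n % 2 = 1) (a b : ℤ) (ha : a % 2 = 1) (hb : b % 2 = 1)
    (hd : (n : ℤ) ∣ b - k * a) (hs : |a| + |b| ≤ 2 * ((n + 4) / 5 : ℕ)) (h5 : 5 ≤ n) :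
    HasIndep n k (4 * n / 5) := by
  haveI : NeZero n := ⟨by omega⟩
  obtain ⟨m, hm⟩ : ∃ m : ℤ, 2 * m = n - a := ⟨(n - a) / 2, by omega⟩
  have ea : ∃ A : ℕ, (2 * A : ℤ) = n - |a| := by
    refine ⟨((n - |a|) / 2).toNat, ?_⟩
    rcases abs_cases a with ⟨h, _⟩ | ⟨h, _⟩ <;> rcases abs_cases b with ⟨h', _⟩ | ⟨h', _⟩ <;>
      rw [h, h'] at hs <;> rw [h] <;> omega
  have eb : ∃ B : ℕ, (2 * B : ℤ) = n - |b| := by
    refine ⟨((n - |b|) / 2).toNat, ?_⟩
    rcases abs_cases a with ⟨h, _⟩ | ⟨h, _⟩ <;> rcases abs_cases b with ⟨h', _⟩ | ⟨h', _⟩ <;>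
      rw [h, h'] at hs <;> rw [h'] <;> omega
  obtain ⟨A, hA⟩ := ea
  obtain ⟨B, hB⟩ := eb
  have h0 : 0 ≤ |a| := abs_nonneg a
  have h0' : 0 ≤ |b| := abs_nonneg b
  obtain ⟨U, V, h1, h2, h3, h4⟩ := arc n k m A B (by omega) (by
    intro δ hδ hdiv
    obtain ⟨q, hq⟩ := hdiv
    have e : 2 * δ + a = n * (2 * q + 1) := by linear_combination 2 * hq + hm
    have hq0 : (2 * q + 1) ≠ 0 := by omega
    have : (n : ℤ) ≤ |2 * δ + a| := by
      rw [e, abs_mul, Nat.abs_cast]
      have : 1 ≤ |2 * q + 1| := Int.one_le_abs hq0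
      nlinarith [Nat.cast_nonneg (α := ℤ) n]
    have h6 : |2 * δ + a| ≤ 2 * |δ| + |a| := by
      refine (abs_add_le _ _).trans ?_
      rw [abs_mul]; norm_num
    omega) (by
    intro δ hδ hdiv
    obtain ⟨q, hq⟩ := hdiv
    obtain ⟨r, hr⟩ := hd
    have e : 2 * δ + b = n * (2 * q + r + k) := by
      linear_combination 2 * hq + hr + k * hm
    have hodd : (2 * δ + b) % 2 = 1 := by omega
    have hq0 : (2 * q + r + k) ≠ 0 := by
      intro h
      rw [h, mul_zero] at e
      rw [e] at hodd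
      omega
    have : (n : ℤ) ≤ |2 * δ + b| := by
      rw [e, abs_mul, Nat.abs_cast]
      have : 1 ≤ |2 * q + r + k| := Int.one_le_abs hq0
      nlinarith [Nat.cast_nonneg (α := ℤ) n]
    have h6 : |2 * δ + b| ≤ 2 * |δ| + |b| := by
      refine (abs_add_le _ _).trans ?_
      rw [abs_mul]; norm_num
    omega)
  exact ⟨U, V, h1, h2, h3, le_trans (by omega) h4⟩

/-- Even `n`, even `k`. -/
theorem of_even_vec (N k : ℕ) (hk : k % 2 = 0) (a b : ℤ)
    (hd : ((2 * N : ℕ) : ℤ) ∣ b - k * a - N) (hs : |a| + |b| ≤ ((2 * N + 4) / 5 : ℕ))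
    (h5 : 5 ≤ N) : HasIndep (2 * N) k (4 * (2 * N) / 5) := by
  haveI : NeZero (2 * N) := ⟨by omega⟩
  have h0 : 0 ≤ |a| := abs_nonneg a
  have h0' : 0 ≤ |b| := abs_nonneg b
  obtain ⟨A, hA⟩ : ∃ A : ℕ, (A : ℤ) = N - |a| := ⟨(N - |a|).toNat, by omega⟩
  obtain ⟨B, hB⟩ : ∃ B : ℕ, (B : ℤ) = N - |b| := ⟨(N - |b|).toNat, by omega⟩
  obtain ⟨l, hl⟩ : ∃ l : ℕ, k = 2 * l := ⟨k / 2, by omega⟩
  obtain ⟨U, V, h1, h2, h3, h4⟩ := arc (2 * N) k (N - a) A B (by omega) (by
    intro δ hδ hdiv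
    obtain ⟨q, hq⟩ := hdiv
    have e : δ + a = N * (2 * q + 1) := by push_cast at hq; linear_combination hq
    have hq0 : (2 * q + 1) ≠ 0 := by omega
    have : (N : ℤ) ≤ |δ + a| := by
      rw [e, abs_mul, Nat.abs_cast]
      have : 1 ≤ |2 * q + 1| := Int.one_le_abs hq0
      nlinarith [Nat.cast_nonneg (α := ℤ) N]
    have h6 : |δ + a| ≤ |δ| + |a| := abs_add_le _ _
    omega) (by
    intro δ hδ hdiv
    obtain ⟨q, hq⟩ := hdiv
    obtain ⟨r, hr⟩ := hd
    have e : δ + b = N * (2 * (q + r + l) + 1) := by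
      rw [hl] at hq hr
      push_cast at hq hr
      linear_combination hq + hr
    have hq0 : (2 * (q + r + l) + 1) ≠ 0 := by omega
    have : (N : ℤ) ≤ |δ + b| := by
      rw [e, abs_mul, Nat.abs_cast]
      have : 1 ≤ |2 * (q + r + l) + 1| := Int.one_le_abs hq0
      nlinarith [Nat.cast_nonneg (α := ℤ) N]
    have h6 : |δ + b| ≤ |δ| + |b| := abs_add_le _ _
    omega)
  exact ⟨U, V, h1, h2, h3, le_trans (by omega) h4⟩

/-- Even `n`, odd `k`: the graph is bipartite. -/
theorem of_even_odd (N k : ℕ) (hk : k % 2 = 1) (hN : 1 ≤ N) :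
    HasIndep (2 * N) k (4 * (2 * N) / 5) := by
  haveI : NeZero (2 * N) := ⟨by omega⟩
  obtain ⟨l, hl⟩ : ∃ l : ℕ, k = 2 * l + 1 := ⟨k / 2, by omega⟩
  obtain ⟨U, V, h1, h2, h3, h4⟩ := arc (2 * N) k N N N (by omega) (by
    intro δ hδ hdiv
    obtain ⟨q, hq⟩ := hdiv
    have e : δ = N * (2 * q + 1) := by push_cast at hq; linear_combination hq
    have hq0 : (2 * q + 1) ≠ 0 := by omega
    have : (N : ℤ) ≤ |δ| := by
      rw [e, abs_mul, Nat.abs_cast]
      have : 1 ≤ |2 * q + 1| := Int.one_le_abs hq0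
      nlinarith [Nat.cast_nonneg (α := ℤ) N]
    omega) (by
    intro δ hδ hdiv
    obtain ⟨q, hq⟩ := hdiv
    have e : δ = N * (2 * (q + l) + 1) := by
      rw [hl] at hq
      push_cast at hq
      linear_combination hq
    have hq0 : (2 * (q + l) + 1) ≠ 0 := by omega
    have : (N : ℤ) ≤ |δ| := by
      rw [e, abs_mul, Nat.abs_cast]
      have : 1 ≤ |2 * (q + l) + 1| := Int.one_le_abs hq0
      nlinarith [Nat.cast_nonneg (α := ℤ) N]
    omega)
  exact ⟨U, V, h1, h2, h3, le_trans (by omega) h4⟩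

/-- Explicit multiplier, for the finite check. -/
theorem of_mult (n k m : ℕ) (hn : 1 ≤ n) (hm : m < n)
    (h : 4 * n / 5 ≤ min m (n - m) + min (k * m % n) (n - k * m % n)) :
    HasIndep n k (4 * n / 5) := by
  haveI : NeZero n := ⟨by omega⟩
  have key : ∀ r : ℕ, r < n → ∀ δ : ℤ, |δ| < (min r (n - r) : ℕ) → ¬ (n : ℤ) ∣ δ - r := by
    intro r hr δ hδ hdiv
    rw [abs_lt] at hδ
    have h1 : δ - r < 0 := by omega
    have h2 : -(n : ℤ) < δ - r := by omega
    obtain ⟨q, hq⟩ := hdiv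
    rw [hq] at h1 h2
    have : q < 0 := by
      by_contra hc
      push Not at hc
      nlinarith
    have : -1 < q := by
      by_contra hc
      push Not at hc
      nlinarith
    omega
  have hr : k * m % n < n := Nat.mod_lt _ (by omega)
  obtain ⟨U, V, h1, h2, h3, h4⟩ := arc n k m (min m (n - m))
    (min (k * m % n) (n - k * m % n)) (by omega) (key m hm) (by
    intro δ hδ hdiv
    apply key (k * m % n) hr δ hδ
    have h5 : (n : ℤ) ∣ (k * m : ℤ) - (k * m % n : ℕ) := by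
      push_cast
      exact Int.dvd_self_sub_emod
    have : δ - ((k * m % n : ℕ) : ℤ) = (δ - k * m) + ((k * m : ℤ) - (k * m % n : ℕ)) := by ring
    rw [this]
    exact dvd_add hdiv h5)
  exact ⟨U, V, h1, h2, h3, le_trans h h4⟩

end Q116.GP
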