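import Mathlib

set_option autoImplicit false

namespace Q116.GP

/-- A short primitive vector of the lattice `{(x, k x + D y)}`, completed to a basis. -/
theorem short_basis (D k : ℤ) (hD : 0 < D) : ∃ x y x' y' : ℤ, x * y' - y * x' = 1 ∧
    (|x| ≤ 6 ∨ 7 * |x| ≤ D) ∧ (|k * x + D * y| ≤ 6 ∨ 7 * |k * x + D * y| ≤ D) := by
  classical
  have hex : ∃ M : ℕ, ∃ x y : ℤ, (x ≠ 0 ∨ y ≠ 0) ∧ max |x| |k * x + D * y| = M := by
    refine ⟨(max |(1 : ℤ)| |k * 1 + D * 0|).toNat, 1, 0, Or.inl one_ne_zero, ?_⟩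
    rw [Int.toNat_of_nonneg]
    exact le_max_of_le_left (abs_nonneg _)
  obtain ⟨x, y, hxy, hM⟩ := Nat.find_spec hex
  have hmin := fun m => Nat.find_min hex (m := m)
  set M := Nat.find hex with hMdef
  have hMpos : 0 < M := by
    rcases Nat.eq_zero_or_pos M with h | h
    · exfalso
      rw [h] at hM
      have h1 : |x| ≤ 0 := by have := le_max_left |x| |k * x + D * y|; rw [hM] at this; exact this
      have h2 : |k * x + D * y| ≤ 0 := by
        have := le_max_right |x| |k * x + D * y|; rw [hM] at this; exact this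
      have h3 : x = 0 := abs_nonpos_iff.1 h1
      have h4 := abs_nonpos_iff.1 h2
      rw [h3, mul_zero, zero_add] at h4
      have h5 : y = 0 := (mul_eq_zero.1 h4).resolve_left hD.ne'
      rcases hxy with h | h
      · exact h h3
      · exact h h5
    · exact h
  -- the minimum is small
  have hsmall : M ≤ 6 ∨ (7 * M : ℤ) ≤ D := by
    obtain ⟨j, i, hi0, hi6, hji⟩ := Real.exists_int_int_abs_mul_sub_le ((k : ℝ) / D)
      (show 0 < 6 by norm_num)
    have hDr : (0 : ℝ) < D := by exact_mod_cast hD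
    have h1 : 7 * |k * i + D * (-j)| ≤ D := by
      have h2 : |(i : ℝ) * ((k : ℝ) / D) - j| = |(k * i + D * (-j) : ℝ)| / D := by
        rw [← abs_of_pos hDr, ← abs_div, abs_of_pos hDr]
        congr 1
        field_simp
        ring
      rw [h2, div_le_div_iff₀ hDr (by norm_num)] at hji
      push_cast at hji
      have h3 : ((7 * |k * i + D * (-j)| : ℤ) : ℝ) ≤ (D : ℤ) := by
        push_cast
        linarith
      exact_mod_cast h3
    have h4 : |i| ≤ 6 := by rw [abs_of_pos hi0]; exact_mod_cast hi6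
    by_contra hcon
    push Not at hcon
    obtain ⟨c1, c2⟩ := hcon
    apply hmin (max |i| |k * i + D * (-j)|).toNat
    · have h5 : max |i| |k * i + D * (-j)| < M := by
        rw [max_lt_iff]
        constructor <;> omega
      have h6 : 0 ≤ max |i| |k * i + D * (-j)| := le_max_of_le_left (abs_nonneg _)
      omega
    · refine ⟨i, -j, Or.inl hi0.ne', ?_⟩
      rw [Int.toNat_of_nonneg (le_max_of_le_left (abs_nonneg _))]
  -- primitive
  have hgcd : Int.gcd x y = 1 := by
    by_contra hg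
    have hg0 : Int.gcd x y ≠ 0 := by
      intro h
      rw [Int.gcd_eq_zero_iff] at h
      rcases hxy with h' | h'
      · exact h' h.1
      · exact h' h.2
    set g := Int.gcd x y with hgdef
    have hg2 : 2 ≤ g := by omega
    obtain ⟨x1, hx1⟩ : (g : ℤ) ∣ x := Int.gcd_dvd_left ..
    obtain ⟨y1, hy1⟩ : (g : ℤ) ∣ y := Int.gcd_dvd_right ..
    have hgz : (2 : ℤ) ≤ g := by exact_mod_cast hg2
    have e1 : |x| = g * |x1| := by rw [hx1, abs_mul, Nat.abs_cast]
    have e2 : |k * x + D * y| = g * |k * x1 + D * y1| := by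
      rw [hx1, hy1, show k * (↑g * x1) + D * (↑g * y1) = g * (k * x1 + D * y1) by ring, abs_mul,
        Nat.abs_cast]
    have e3 : (M : ℤ) = g * max |x1| |k * x1 + D * y1| := by
      rw [← hM, e1, e2, mul_max_of_nonneg _ _ (by positivity)]
    have e4 : 0 ≤ max |x1| |k * x1 + D * y1| := le_max_of_le_left (abs_nonneg _)
    apply hmin (max |x1| |k * x1 + D * y1|).toNat
    · have : max |x1| |k * x1 + D * y1| < M := by
        have hMz : (0 : ℤ) < M := by exact_mod_cast hMpos
        nlinarith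
      omega
    · refine ⟨x1, y1, ?_, ?_⟩
      · rcases hxy with h | h
        · left; rintro rfl; exact h (by rw [hx1, mul_zero])
        · right; rintro rfl; exact h (by rw [hy1, mul_zero])
      · rw [Int.toNat_of_nonneg e4]
  have hbez := Int.gcd_eq_gcd_ab x y
  rw [hgcd] at hbez
  have l1 := le_max_left |x| |k * x + D * y|
  have l2 := le_max_right |x| |k * x + D * y|
  rw [hM] at l1 l2
  refine ⟨x, y, -Int.gcdB x y, Int.gcdA x y, ?_, ?_, ?_⟩
  · push_cast at hbez
    linarith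
  · rcases hsmall with h | h
    · left; omega
    · right; omega
  · rcases hsmall with h | h
    · left; omega
    · right; omega

/-- Centered reduction. -/
theorem centered (a0 c : ℤ) (hc : 0 < c) : ∃ q : ℤ, 2 * |a0 - c * q| ≤ c := by
  have h1 := Int.emod_nonneg a0 hc.ne'
  have h2 := Int.emod_lt_of_pos a0 hc
  have h3 := Int.emod_add_mul_ediv a0 c
  rcases le_or_gt (2 * (a0 % c)) c with h | h
  · refine ⟨a0 / c, ?_⟩
    rw [show a0 - c * (a0 / c) = a0 % c by linarith, abs_of_nonneg h1]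
    exact h
  · refine ⟨a0 / c + 1, ?_⟩
    rw [show a0 - c * (a0 / c + 1) = a0 % c - c by linarith, abs_of_neg (by linarith)]
    linarith

/-- Shifting a vector of determinant `D` by multiples of `s (α, β)`. -/
theorem shift_aux (α β a0 b0 D s : ℤ) (hdet : α * b0 - β * a0 = D) (hD : 0 < D) (hs : 0 < s)
    (hle : |β| ≤ |α|) : ∃ t : ℤ, 2 * |α| * (|a0 + s * t * α| + |b0 + s * t * β|) ≤
      2 * D + s * |α| * (|α| + |β|) := by
  have hα : α ≠ 0 := by
    rintro rfl
    rw [abs_zero] at hle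
    have := abs_nonpos_iff.1 hle
    rw [this] at hdet
    simp at hdet
    omega
  have hαp : 0 < |α| := abs_pos.2 hα
  obtain ⟨q, hq⟩ := centered a0 (s * |α|) (by positivity)
  obtain ⟨t, ht⟩ : ∃ t : ℤ, s * t * α = - (s * |α| * q) := by
    rcases abs_cases α with ⟨h, _⟩ | ⟨h, _⟩
    · exact ⟨-q, by rw [h]; ring⟩
    · exact ⟨q, by rw [h]; ring⟩
  refine ⟨t, ?_⟩
  have ha : 2 * |a0 + s * t * α| ≤ s * |α| := by
    rw [ht]
    exact hq
  set a := a0 + s * t * α with hadef
  set b := b0 + s * t * β with hbdef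
  have hdet' : α * b - β * a = D := by rw [hadef, hbdef, ← hdet]; ring
  have hb : |α| * |b| ≤ D + |β| * |a| := by
    rw [← abs_mul, ← abs_mul]
    have : α * b = D + β * a := by linarith
    rw [this]
    refine (abs_add_le _ _).trans ?_
    rw [abs_of_pos hD]
  have h1 : 0 ≤ |a| := abs_nonneg a
  have h2 : 0 ≤ |β| := abs_nonneg β
  have h3 : |β| * (2 * |a|) ≤ |β| * (s * |α|) := mul_le_mul_of_nonneg_left ha h2
  have h4 : |α| * (2 * |a|) ≤ |α| * (s * |α|) := mul_le_mul_of_nonneg_left ha hαp.le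
  nlinarith

theorem shift (α β a0 b0 D s : ℤ) (hdet : α * b0 - β * a0 = D) (hD : 0 < D) (hs : 0 < s) :
    ∃ t : ℤ, 2 * max |α| |β| * (|a0 + s * t * α| + |b0 + s * t * β|) ≤
      2 * D + s * max |α| |β| * (|α| + |β|) := by
  rcases le_total |β| |α| with h | h
  · rw [max_eq_left h]
    exact shift_aux α β a0 b0 D s hdet hD hs h
  · rw [max_eq_right h]
    obtain ⟨t, ht⟩ := shift_aux β (-α) b0 (-a0) D s (by linarith) hD hs (by rwa [abs_neg])
    refine ⟨t, ?_⟩
    rw [abs_neg, show -a0 + s * t * -α = -(a0 + s * t * α) by ring, abs_neg] at ht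
    linarith

/-- Odd case. -/
theorem lattice_odd (n k : ℕ) (hn : n % 2 = 1) (hn75 : 75 ≤ n) (hk1 : 1 ≤ k) (hk : 2 * k < n)
    (hk2 : k ≠ 2) (hk3 : 2 * k + 1 ≠ n) : ∃ a b : ℤ, a % 2 = 1 ∧ b % 2 = 1 ∧
      (n : ℤ) ∣ b - k * a ∧ 5 * (|a| + |b|) ≤ 2 * n := by
  obtain ⟨x, y, x', y', hdet, h1, h2⟩ := short_basis n k (by omega)
  set α := x with hα
  set β := (k : ℤ) * x + n * y with hβ
  set a0 := x' with ha0
  set b0 := (k : ℤ) * x' + n * y' with hb0
  have hdet' : α * b0 - β * a0 = n := by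
    rw [hβ, hb0, hα, ha0]; linear_combination (n : ℤ) * hdet
  have hαn : (n : ℤ) ∣ β - k * α := ⟨y, by rw [hβ]; ring⟩
  have han : (n : ℤ) ∣ b0 - k * a0 := ⟨y', by rw [hb0]; ring⟩
  have hα6 : 6 * |α| ≤ n := by omega
  have hβ6 : 6 * |β| ≤ n := by omega
  by_cases hboth : α % 2 = 1 ∧ β % 2 = 1
  · exact ⟨α, β, hboth.1, hboth.2, hαn, by omega⟩
  -- not both even
  have hne : ¬ (α % 2 = 0 ∧ β % 2 = 0) := by
    rintro ⟨e1, e2⟩
    obtain ⟨u, hu⟩ : (2 : ℤ) ∣ α := by omega
    obtain ⟨v, hv⟩ : (2 : ℤ) ∣ β := by omega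
    have : (n : ℤ) = 2 * (u * b0 - v * a0) := by rw [← hdet', hu, hv]; ring
    omega
  -- the reduced vector has sup norm at least three
  have hM3 : 3 ≤ max |α| |β| := by
    by_contra hcon
    push Not at hcon
    have c1 : |α| ≤ 2 := by have := le_max_left |α| |β|; omega
    have c2 : |β| ≤ 2 := by have := le_max_right |α| |β|; omega
    rw [abs_le] at c1 c2
    obtain ⟨r, hr⟩ := hαn
    have hr' : β = k * α + n * r := by linarith
    obtain ⟨c3, c4⟩ := c1
    obtain ⟨c5, c6⟩ := c2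
    have kz : (1 : ℤ) ≤ k := by exact_mod_cast hk1
    have kn : 2 * (k : ℤ) < n := by exact_mod_cast hk
    have nz : (75 : ℤ) ≤ n := by exact_mod_cast hn75
    have hkz2 : (k : ℤ) ≠ 2 := by exact_mod_cast hk2
    have hkz3 : 2 * (k : ℤ) + 1 ≠ n := by exact_mod_cast hk3
    have hr2 : -2 ≤ r ∧ r ≤ 2 := by
      constructor
      · by_contra hc
        push Not at hc
        have : n * r ≤ n * (-3) := by nlinarith
        nlinarith
      · by_contra hc
        push Not at hc
        have : (n : ℤ) * 3 ≤ n * r := by nlinarith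
        nlinarith
    obtain ⟨r1, r2⟩ := hr2
    have hα5 : α = -2 ∨ α = -1 ∨ α = 0 ∨ α = 1 ∨ α = 2 := by omega
    have hr5 : r = -2 ∨ r = -1 ∨ r = 0 ∨ r = 1 ∨ r = 2 := by omega
    rcases hα5 with e | e | e | e | e <;> rcases hr5 with f | f | f | f | f <;>
      rw [e, f] at hr' <;> rw [e] at hne hboth <;> omega
  -- choose the parity
  have hpar : ∃ i : ℤ, (a0 + i * α) % 2 = 1 ∧ (b0 + i * β) % 2 = 1 := by
    have hA : α % 2 = 0 ∨ α % 2 = 1 := by omega
    have hB : β % 2 = 0 ∨ β % 2 = 1 := by omega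
    rcases hA with hA | hA
    · rcases hB with hB | hB
      · exact absurd ⟨hA, hB⟩ hne
      · -- a0 odd
        obtain ⟨u, hu⟩ : ∃ u, α = 2 * u := ⟨α / 2, by omega⟩
        obtain ⟨v, hv⟩ : ∃ v, β = 2 * v + 1 := ⟨β / 2, by omega⟩
        have e : (n : ℤ) = 2 * (u * b0 - v * a0) - a0 := by rw [← hdet', hu, hv]; ring
        have ha : a0 % 2 = 1 := by omega
        rcases Int.emod_two_eq_zero_or_one b0 with h | h
        · exact ⟨1, by omega, by omega⟩
        · exact ⟨0, by omega, by omega⟩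
    · rcases hB with hB | hB
      · obtain ⟨u, hu⟩ : ∃ u, α = 2 * u + 1 := ⟨α / 2, by omega⟩
        obtain ⟨v, hv⟩ : ∃ v, β = 2 * v := ⟨β / 2, by omega⟩
        have e : (n : ℤ) = 2 * (u * b0 - v * a0) + b0 := by rw [← hdet', hu, hv]; ring
        have hb : b0 % 2 = 1 := by omega
        rcases Int.emod_two_eq_zero_or_one a0 with h | h
        · exact ⟨1, by omega, by omega⟩
        · exact ⟨0, by omega, by omega⟩
      · exact absurd ⟨hA, hB⟩ hboth
  obtain ⟨i, hi1, hi2⟩ := hpar
  obtain ⟨t, ht⟩ := shift α β (a0 + i * α) (b0 + i * β) n 2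
    (by rw [← hdet']; ring) (by omega) (by norm_num)
  set a := a0 + i * α + 2 * t * α with ha
  set b := b0 + i * β + 2 * t * β with hb
  refine ⟨a, b, ?_, ?_, ?_, ?_⟩
  · rw [ha, show a0 + i * α + 2 * t * α = (a0 + i * α) + 2 * (t * α) by ring]; omega
  · rw [hb, show b0 + i * β + 2 * t * β = (b0 + i * β) + 2 * (t * β) by ring]; omega
  · obtain ⟨r, hr⟩ := hαn
    obtain ⟨r', hr'⟩ := han
    exact ⟨r' + i * r + 2 * t * r, by rw [ha, hb]; linear_combination hr' + (i + 2 * t) * hr⟩
  · set M := max |α| |β| with hMdef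
    have hM6 : 6 * M ≤ n := by
      rw [hMdef]
      rcases max_cases |α| |β| with ⟨h, _⟩ | ⟨h, _⟩ <;> rw [h] <;> assumption
    have hsum : |α| + |β| ≤ 2 * M - 1 := by
      have l1 := le_max_left |α| |β|
      have l2 := le_max_right |α| |β|
      have hneq : |α| ≠ |β| := by
        intro h
        rcases abs_cases α with ⟨c, _⟩ | ⟨c, _⟩ <;> rcases abs_cases β with ⟨c', _⟩ | ⟨c', _⟩ <;>
          rw [c, c'] at h <;> omega
      rcases lt_or_gt_of_ne hneq with h | h
      · rw [← hMdef] at l2; omega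
      · rw [← hMdef] at l1; omega
    have hMs : M * (|α| + |β|) ≤ M * (2 * M - 1) := mul_le_mul_of_nonneg_left hsum (by omega)
    have nz : (75 : ℤ) ≤ n := by exact_mod_cast hn75
    have k1 : M * (|a| + |b|) ≤ n + M * (2 * M - 1) := by nlinarith
    have k2 : 5 * (n + M * (2 * M - 1)) ≤ 2 * n * M := by
      nlinarith [mul_nonneg (sub_nonneg.2 hM3) (sub_nonneg.2 hM6)]
    have k3 : M * (5 * (|a| + |b|)) ≤ M * (2 * n) := by nlinarith
    exact le_of_mul_le_mul_left k3 (by omega)

/-- Even case. -/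
theorem lattice_even (N k : ℕ) (hN : 45 ≤ N) (hke : k % 2 = 0) (hk1 : 1 ≤ k) (hk : k < N)
    (hk2 : k ≠ 2) : ∃ a b : ℤ, ((2 * N : ℕ) : ℤ) ∣ b - k * a - N ∧ 5 * (|a| + |b|) ≤ 2 * N := by
  obtain ⟨x, y, x', y', hdet, h1, h2⟩ := short_basis N k (by omega)
  set α := x with hα
  set β := (k : ℤ) * x + N * y with hβ
  set a0 := x' with ha0
  set b0 := (k : ℤ) * x' + N * y' with hb0
  have hdet' : α * b0 - β * a0 = N := by
    rw [hβ, hb0, hα, ha0]; linear_combination (N : ℤ) * hdet
  have hα6 : 6 * |α| ≤ N := by omega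
  have hβ6 : 6 * |β| ≤ N := by omega
  rcases Int.emod_two_eq_zero_or_one y with hy | hy
  · -- `y` even: use the second vector
    have hx : x % 2 = 1 := by
      rcases Int.emod_two_eq_zero_or_one x with h | h
      · exfalso
        obtain ⟨u, hu⟩ : ∃ u, α = 2 * u := ⟨x / 2, by omega⟩
        obtain ⟨v, hv⟩ : ∃ v, y = 2 * v := ⟨y / 2, by omega⟩
        rw [hu, hv] at hdet
        have : 2 * (u * y' - v * a0) = 1 := by linarith
        omega
      · exact h
    obtain ⟨w, hw⟩ : ∃ w, y = 2 * w := ⟨y / 2, by omega⟩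
    have hy' : y' % 2 = 1 := by
      rcases Int.emod_two_eq_zero_or_one y' with h | h
      · exfalso
        obtain ⟨v, hv⟩ : ∃ v, y' = 2 * v := ⟨y' / 2, by omega⟩
        rw [hw, hv] at hdet
        have : 2 * (α * v - w * a0) = 1 := by linarith
        omega
      · exact h
    have hM3 : 3 ≤ max |α| |β| := by
      by_contra hcon
      push Not at hcon
      have c1 : |α| ≤ 2 := by have := le_max_left |α| |β|; omega
      have c2 : |β| ≤ 2 := by have := le_max_right |α| |β|; omega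
      rw [abs_le] at c1 c2
      obtain ⟨c3, c4⟩ := c1
      obtain ⟨c5, c6⟩ := c2
      have kz : (1 : ℤ) ≤ k := by exact_mod_cast hk1
      have kn : (k : ℤ) < N := by exact_mod_cast hk
      have nz : (45 : ℤ) ≤ N := by exact_mod_cast hN
      have hkz2 : (k : ℤ) ≠ 2 := by exact_mod_cast hk2
      have hr' : β = k * α + N * (2 * w) := by rw [hβ, hw]
      have hr2 : -1 ≤ w ∧ w ≤ 1 := by
        constructor
        · by_contra hc
          push Not at hc
          have : N * w ≤ N * (-2) := by nlinarith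
          nlinarith
        · by_contra hc
          push Not at hc
          have : (N : ℤ) * 2 ≤ N * w := by nlinarith
          nlinarith
      have hα5 : α = -1 ∨ α = 1 := by omega
      have hr5 : w = -1 ∨ w = 0 ∨ w = 1 := by omega
      obtain ⟨l, hl⟩ : ∃ l : ℕ, k = 2 * l := ⟨k / 2, by omega⟩
      rcases hα5 with e | e <;> rcases hr5 with f | f | f <;>
        rw [e, f] at hr' <;> omega
    obtain ⟨t, ht⟩ := shift α β a0 b0 N 1 hdet' (by omega) (by norm_num)
    set a := a0 + 1 * t * α with ha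
    set b := b0 + 1 * t * β with hb
    refine ⟨a, b, ?_, ?_⟩
    · obtain ⟨v, hv⟩ : ∃ v, y' = 2 * v + 1 := ⟨y' / 2, by omega⟩
      refine ⟨v + t * w, ?_⟩
      rw [ha, hb, hβ, hb0, hv, hw, hα, ha0]
      push_cast
      ring
    · set M := max |α| |β| with hMdef
      have hM6 : 6 * M ≤ N := by
        rw [hMdef]
        rcases max_cases |α| |β| with ⟨h, _⟩ | ⟨h, _⟩ <;> rw [h] <;> assumption
      have hsum : |α| + |β| ≤ 2 * M := by
        have l1 := le_max_left |α| |β|
        have l2 := le_max_right |α| |β|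
        rw [← hMdef] at l1 l2
        omega
      have hMs : M * (|α| + |β|) ≤ M * (2 * M) := mul_le_mul_of_nonneg_left hsum (by omega)
      have nz : (45 : ℤ) ≤ N := by exact_mod_cast hN
      have k1 : M * (|a| + |b|) ≤ N + M * M := by nlinarith
      have k2 : 5 * (N + M * M) ≤ 2 * N * M := by
        nlinarith [mul_nonneg (sub_nonneg.2 hM3) (sub_nonneg.2 hM6)]
      have k3 : M * (5 * (|a| + |b|)) ≤ M * (2 * N) := by nlinarith
      exact le_of_mul_le_mul_left k3 (by omega)
  · -- `y` odd: use the short vector itself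
    refine ⟨α, β, ?_, by omega⟩
    obtain ⟨v, hv⟩ : ∃ v, y = 2 * v + 1 := ⟨y / 2, by omega⟩
    refine ⟨v, ?_⟩
    rw [hβ, hv, hα]
    push_cast
    ring

end Q116.GP
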