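import Pool.Agent.Q116.GP.Arc

set_option autoImplicit false

namespace Q116.GP

open Finset

theorem add_mod_cases (n v c : ℕ) (hv : v < n) (hc : c ≤ n) :
    (v + c < n ∧ (v + c) % n = v + c) ∨ (n ≤ v + c ∧ (v + c) % n = v + c - n) := by
  rcases Nat.lt_or_ge (v + c) n with h | h
  · exact Or.inl ⟨h, Nat.mod_eq_of_lt h⟩
  · right
    refine ⟨h, ?_⟩
    rw [Nat.mod_eq_sub_mod h, Nat.mod_eq_of_lt (by omega)]

/-- positions of `u`-vertices -/
def isU (n v : ℕ) : Prop :=
  (v < 5 * (n / 5) ∧ (v % 5 = 0 ∨ v % 5 = 2)) ∨ (v = 5 * (n / 5) ∧ 2 ≤ n % 5) ∨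
    (v = 5 * (n / 5) + 2 ∧ n % 5 = 4)

/-- positions of `v`-vertices -/
def isV (n v : ℕ) : Prop :=
  (v < 5 * (n / 5) ∧ (v % 5 = 3 ∨ v % 5 = 4)) ∨ (v = 5 * (n / 5) + 2 ∧ n % 5 = 3) ∨
    (v = 5 * (n / 5) + 3 ∧ n % 5 = 4)

instance (n v : ℕ) : Decidable (isU n v) := by unfold isU; infer_instance

instance (n v : ℕ) : Decidable (isV n v) := by unfold isV; infer_instance

theorem two (n : ℕ) (hn : 5 ≤ n) : HasIndep n 2 (4 * n / 5) := by
  classical
  haveI : NeZero n := ⟨by omega⟩
  set U : Finset (ZMod n) := univ.filter (fun i => isU n i.val) with hU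
  set V : Finset (ZMod n) := univ.filter (fun i => isV n i.val) with hV
  have v1 : (1 : ZMod n).val = 1 := by
    rw [ZMod.val_one_eq_one_mod]; exact Nat.mod_eq_of_lt (by omega)
  have v2 : ((2 : ℕ) : ZMod n).val = 2 := ZMod.val_natCast_of_lt (by omega)
  refine ⟨U, V, ?_, ?_, ?_, ?_⟩
  · intro i hi hi2
    rw [hU, Finset.mem_filter] at hi hi2
    have h1 := hi.2
    have h2 := hi2.2
    rw [ZMod.val_add, v1] at h2
    have hlt := ZMod.val_lt i
    have hc := add_mod_cases n i.val 1 hlt (by omega)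
    unfold isU at h1 h2
    omega
  · intro i hi hi2
    rw [hV, Finset.mem_filter] at hi hi2
    have h1 := hi.2
    have h2 := hi2.2
    rw [ZMod.val_add, v2] at h2
    have hlt := ZMod.val_lt i
    have hc := add_mod_cases n i.val 2 hlt (by omega)
    unfold isV at h1 h2
    omega
  · intro i hi hi2
    rw [hU, Finset.mem_filter] at hi
    rw [hV, Finset.mem_filter] at hi2
    have h1 := hi.2
    have h2 := hi2.2
    unfold isU at h1
    unfold isV at h2
    omega
  · set Z : Finset (ZMod n) := (Finset.range ((n + 4) / 5)).image (fun j : ℕ =>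
      if j < n / 5 then ((5 * j + 1 : ℕ) : ZMod n) else
        (if n % 5 = 1 then ((5 * (n / 5) : ℕ) : ZMod n) else ((5 * (n / 5) + 1 : ℕ) : ZMod n)))
      with hZ
    have hcov : (univ : Finset (ZMod n)) ⊆ (U ∪ V) ∪ Z := by
      intro i _
      have hlt := ZMod.val_lt i
      rw [Finset.mem_union, Finset.mem_union]
      by_cases h1 : isU n i.val
      · exact Or.inl (Or.inl (by rw [hU, Finset.mem_filter]; exact ⟨Finset.mem_univ _, h1⟩))
      by_cases h2 : isV n i.val
      · exact Or.inl (Or.inr (by rw [hV, Finset.mem_filter]; exact ⟨Finset.mem_univ _, h2⟩))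
      right
      rw [hZ, Finset.mem_image]
      unfold isU at h1
      unfold isV at h2
      by_cases h3 : i.val < 5 * (n / 5)
      · refine ⟨i.val / 5, by rw [Finset.mem_range]; omega, ?_⟩
        rw [if_pos (by omega)]
        have : 5 * (i.val / 5) + 1 = i.val := by omega
        rw [this, ZMod.natCast_zmod_val]
      · refine ⟨n / 5, by rw [Finset.mem_range]; omega, ?_⟩
        rw [if_neg (by omega)]
        by_cases h4 : n % 5 = 1
        · rw [if_pos h4]
          have : 5 * (n / 5) = i.val := by omega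
          rw [this, ZMod.natCast_zmod_val]
        · rw [if_neg h4]
          have : 5 * (n / 5) + 1 = i.val := by omega
          rw [this, ZMod.natCast_zmod_val]
    have h1 := Finset.card_le_card hcov
    rw [Finset.card_univ, ZMod.card] at h1
    have h2 := Finset.card_union_le (U ∪ V) Z
    have h3 := Finset.card_union_le U V
    have h4 : Z.card ≤ (n + 4) / 5 := by
      rw [hZ]
      exact Finset.card_image_le.trans (by simp)
    omega

/-- `P(n, (n-1)/2) ≅ P(n, 2)`. -/
theorem half (n k s : ℕ) (hk : 2 * k + 1 = n) (h : HasIndep n 2 s) : HasIndep n k s := by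
  obtain ⟨U, V, h1, h2, h3, h4⟩ := h
  have hkk : (2 : ZMod n) * (k : ZMod n) + 1 = 0 := by
    have : ((2 * k + 1 : ℕ) : ZMod n) = 0 := by rw [hk]; exact ZMod.natCast_self n
    push_cast at this
    exact this
  let e : ZMod n ≃ ZMod n :=
    { toFun := fun j => -2 * j
      invFun := fun i => (k : ZMod n) * i
      left_inv := fun j => by linear_combination (-j) * hkk
      right_inv := fun i => by linear_combination (-i) * hkk }
  have hmem : ∀ (S : Finset (ZMod n)) (j : ZMod n), j ∈ S.map e.symm.toEmbedding ↔ -2 * j ∈ S := by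
    intro S j
    rw [Finset.mem_map_equiv, Equiv.symm_symm]
    rfl
  refine ⟨V.map e.symm.toEmbedding, U.map e.symm.toEmbedding, ?_, ?_, ?_, ?_⟩
  · intro j hj hj2
    rw [hmem] at hj hj2
    apply h2 _ hj2
    rw [show -2 * (j + 1) + ((2 : ℕ) : ZMod n) = -2 * j by push_cast; ring]
    exact hj
  · intro j hj hj2
    rw [hmem] at hj hj2
    apply h1 _ hj
    rw [show -2 * j + 1 = -2 * (j + (k : ZMod n)) by linear_combination hkk]
    exact hj2
  · intro j hj hj2
    rw [hmem] at hj hj2
    exact h3 _ hj2 hj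
  · rw [Finset.card_map, Finset.card_map]
    omega

end Q116.GP
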